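import Pool.Agent.S08704

set_option autoImplicit false

namespace Pool.Agent.Results.MP_8acafb_co.AThreeStackUpper

/-- For the stack-sorting map `s`, the number of permutations of length `n` sorted by three passes
is at most `9.702 ^ n`. -/
theorem result (s : List ℕ → List ℕ) (h0 : s [] = [])
    (h1 : ∀ (L R : List ℕ) (m : ℕ), (L ++ m :: R).Nodup → (∀ x ∈ L, x < m) → (∀ x ∈ R, x < m) →
      s (L ++ m :: R) = s L ++ s R ++ [m]) (n : ℕ) :
    (((Finset.univ : Finset (Equiv.Perm (Fin n))).filter
      (fun σ => s (s (s (List.ofFn (fun i : Fin n => ((σ i : Fin n) : ℕ))))) =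
        List.range n)).card : ℝ) ≤ 9.702 ^ n := by
  rcases Nat.eq_zero_or_pos n with rfl | hn
  · rw [pow_zero]
    exact_mod_cast (Finset.card_filter_le _ _).trans (by simp)
  · exact Pool.Agent.S08704.card_bound ⟨h0, h1⟩ hn

end Pool.Agent.Results.MP_8acafb_co.AThreeStackUpper
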